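import Pool.Agent.ZPK.StmtsR

/-!
# ZPK, row ARL (helper48): arithmetic of the lower end
-/

set_option autoImplicit false

namespace Pool.Agent.ZPK.H48

open Pool.Agent.ZPT Pool.Agent.ZP3

theorem arl : ArlStmt := by
  intro p hp hp3 A B e e' j α hA hAB hcop hα hpA hpA' he' hep heq
  obtain ⟨C, rfl⟩ : ∃ C, B = A + C := ⟨B - A, by omega⟩
  have hC : 1 ≤ C := by omega
  have hAC : Nat.Coprime A C := by
    rwa [Nat.coprime_self_add_right] at hcop
  rw [Nat.add_sub_cancel_left] at heq
  have he : 1 ≤ e := by omega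
  obtain ⟨b, rfl⟩ : ∃ b, α = b + 1 := ⟨α - 1, by omega⟩
  rw [Nat.add_sub_cancel] at heq
  have hj : 1 ≤ j := by
    rcases Nat.eq_zero_or_pos j with h0 | h0
    · rw [h0, pow_zero, mul_one, zero_mul, zero_mul] at heq
      have : 0 < e * C := Nat.mul_pos he hC
      omega
    · exact h0
  have hp0 : 0 < p := hp.pos
  have hpA1 : p ∣ A := (dvd_pow_self p (by omega)).trans hpA
  -- A divides e * p ^ j + e'
  have hdvd : A ∣ e * p ^ j + e' := by
    have h1 : A ∣ (e * p ^ j + e') * C := by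
      have h2 : (e * p ^ j + e') * C + A * (e' + b * e) = A * (j * e) := by
        linear_combination heq
      exact (Nat.dvd_add_left (Dvd.intro _ rfl)).1 (by rw [h2]; exact Dvd.intro _ rfl)
    exact hAC.dvd_of_dvd_mul_right h1
  -- e' = 0
  have he'0 : e' = 0 := by
    by_contra hne
    have h1 : p ∣ e * p ^ j + e' := hpA1.trans hdvd
    have h2 : p ∣ e * p ^ j := (dvd_pow_self p (by omega)).mul_left e
    have h3 : p ∣ e' := (Nat.dvd_add_right h2).1 h1
    have h4 := Nat.le_of_dvd (Nat.pos_of_ne_zero hne) h3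
    omega
  subst he'0
  rw [add_zero] at hdvd
  rw [zero_mul, add_zero] at heq
  have hpe : ¬ p ∣ e := fun h => by
    have := Nat.le_of_dvd he h
    omega
  have hcpe : Nat.Coprime p e := (Nat.Prime.coprime_iff_not_dvd hp).2 hpe
  have hbj : b + 1 ≤ j := by
    have h1 : p ^ (b + 1) ∣ e * p ^ j := hpA.trans hdvd
    have h2 : p ^ (b + 1) ∣ p ^ j := (hcpe.pow_left (b + 1)).dvd_of_dvd_mul_left h1
    exact (Nat.pow_dvd_pow_iff_le_right hp.one_lt).1 h2
  obtain ⟨n, rfl⟩ : ∃ n, j = b + 1 + n := ⟨j - (b + 1), by omega⟩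
  obtain ⟨A', rfl⟩ := hpA
  have hpA2 : ¬ p ∣ A' := by
    intro h
    obtain ⟨k, hk⟩ := h
    exact hpA' ⟨k, by rw [hk]; ring⟩
  have hcA' : Nat.Coprime p A' := (Nat.Prime.coprime_iff_not_dvd hp).2 hpA2
  have hpos : 0 < p ^ (b + 1) := Nat.pow_pos hp0
  have hA'0 : 0 < A' := by
    rcases Nat.eq_zero_or_pos A' with h | h
    · rw [h, mul_zero] at hA
      omega
    · exact h
  -- main equation
  have h5 : C * p ^ n = A' * (n + 1) := by
    have h6 : e * p ^ (b + 1) * (C * p ^ n) = e * p ^ (b + 1) * (A' * (n + 1)) := by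
      have h7 : e * p ^ (b + 1 + n) * C + b * e * (p ^ (b + 1) * A') =
          (b + 1 + n) * e * (p ^ (b + 1) * A') := heq
      rw [pow_add] at h7
      have h8 : e * (p ^ (b + 1) * p ^ n) * C + b * e * (p ^ (b + 1) * A') =
        e * p ^ (b + 1) * (A' * (n + 1)) + b * e * (p ^ (b + 1) * A') := by
        rw [h7]
        ring
      have h9 := Nat.add_right_cancel h8
      rw [← h9]
      ring
    exact Nat.eq_of_mul_eq_mul_left (Nat.mul_pos he hpos) h6
  have hcC : Nat.Coprime A' C := Nat.Coprime.coprime_mul_left hAC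
  have h6 : A' ∣ p ^ n := by
    have h7 : A' ∣ C * p ^ n := by
      rw [h5]
      exact Dvd.intro _ rfl
    exact hcC.dvd_of_dvd_mul_left h7
  have hA'1 : A' = 1 := by
    have h7 : Nat.Coprime A' (p ^ n) := (hcA'.symm).pow_right n
    exact Nat.Coprime.eq_one_of_dvd h7 h6
  subst hA'1
  rw [one_mul] at h5
  have hn : n = 0 := by
    by_contra hne
    have h7 : n + 1 < p ^ n := by
      have h8 : ∀ m : ℕ, 1 ≤ m → m + 1 < 3 ^ m := by
        intro m hm
        induction m, hm using Nat.le_induction with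
        | base => norm_num
        | succ m _ ih => rw [pow_succ]; omega
      exact (h8 n (by omega)).trans_le (Nat.pow_le_pow_left hp3 n)
    have h9 : p ^ n ≤ C * p ^ n := Nat.le_mul_of_pos_left _ hC
    omega
  subst hn
  rw [pow_zero, mul_one] at h5
  refine ⟨rfl, by rw [mul_one], ?_⟩
  rw [h5, mul_one]

end Pool.Agent.ZPK.H48
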