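import Pool.Agent.ZPK.StmtsG
import Pool.Agent.Helper80_ZPK.CTA

/-!
Squad ZPK, row CNX: the number of the failures of `GenX`.
-/

set_option autoImplicit false

namespace Pool.Agent.ZPK.H48

open Polynomial Pool.Agent.ZPT Pool.Agent.ZP3

noncomputable section

theorem Rs_fin (p : ℕ) {n m : ℕ} (E : Set (Fin n → Fin m → ℤ)) : (Rs p E).Finite := by
  have hfin : (Set.Icc (fun _ _ => (0 : ℤ)) (fun _ _ => (p : ℤ) ^ 2) :
      Set (Fin n → Fin m → ℤ)).Finite := Set.finite_Icc _ _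
  refine hfin.subset ?_
  intro x hx
  exact ⟨fun i r => (hx.1 i r).1, fun i r => (hx.1 i r).2.le⟩

/-- union bound -/
theorem Rs_union (p : ℕ) {n m : ℕ} {T : Type} [Fintype T] (E : Set (Fin n → Fin m → ℤ))
    (S : T → Set (Fin n → Fin m → ℤ)) (hE : ∀ a ∈ E, ∃ t, a ∈ S t) (B : ℕ)
    (hS : ∀ t, (Rs p (S t)).ncard * p ^ 2 ≤ B) :
    (Rs p E).ncard * p ^ 2 ≤ Fintype.card T * B := by
  have h1 : (Rs p E).ncard ≤ ∑ t, (Rs p (S t)).ncard := by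
    refine le_trans (Set.ncard_le_ncard ?_ (Set.finite_iUnion fun t => Rs_fin p (S t)))
      (Set.ncard_iUnion_le_of_fintype fun t => Rs p (S t))
    rintro x ⟨hx, a, ha, hxa⟩
    obtain ⟨t, ht⟩ := hE a ha
    exact Set.mem_iUnion.2 ⟨t, hx, a, ht, hxa⟩
  calc (Rs p E).ncard * p ^ 2 ≤ (∑ t, (Rs p (S t)).ncard) * p ^ 2 := Nat.mul_le_mul_right _ h1
    _ = ∑ t, (Rs p (S t)).ncard * p ^ 2 := Finset.sum_mul _ _ _
    _ ≤ ∑ _t : T, B := Finset.sum_le_sum fun t _ => hS t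
    _ = Fintype.card T * B := by rw [Finset.sum_const, Finset.card_univ, smul_eq_mul]

theorem cnx (cta : CtaStmt) (gxa : GxaStmt) : CnxStmt := by
  intro p hp K _ _ _ hK n m β hβ ν hν e A E hZ hE hA1 hA0
  set S : (Fin n × Fin n × Fin n × Fin n × Fin E) → Set (Fin n → Fin m → ℤ) := fun t =>
    {a | (∀ i, ‖sv β (a i)‖ = 1) ∧ Di e A (gv β ν a) ∧
      (t.1 ≠ t.2.1 ∧ t.1 ≠ t.2.2.1 ∧ t.1 ≠ t.2.2.2.1 ∧ t.2.2.1 ≠ t.2.2.2.1 ∧
        t.2.1 ≠ t.2.2.2.1 ∧ 1 ≤ e t.1 ∧ A t.1 0 = 1 ∧ (∀ r, 1 ≤ r → A t.1 r = 0) ∧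
        1 ≤ (t.2.2.2.2 : ℕ) ∧ (t.2.2.2.2 : ℕ) < e t.1 ∧
        ¬ (e t.2.2.1 < e t.1 ∧ e t.2.2.2.1 < e t.1) ∧
        ¬ (e t.1 < e t.2.2.1 ∧ e t.1 < e t.2.2.2.1)) ∧
      (∃ x ∈ ({t.2.1, t.2.2.1, t.2.2.2.1} : Set (Fin n)),
        Mu (e t.1) (e x) (A x) (t.2.2.2.2 : ℕ) ≠ 0 ∨
        Nu (e t.1) (e x) (A x) (gv β ν a x) (t.2.2.2.2 : ℕ) ≠ 0) ∧
      ∀ r, ‖(Hb e A (gv β ν a) t.1 t.2.1 t.2.2.1 t.2.2.2.1 (t.2.2.2.2 : ℕ)).coeff r‖ ≠ 1} with hSdef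
  have hcard : Fintype.card (Fin n × Fin n × Fin n × Fin n × Fin E) = n ^ 4 * E := by
    simp only [Fintype.card_prod, Fintype.card_fin]
    ring
  rw [← hcard]
  refine Rs_union p _ S ?_ _ ?_
  · rintro a ⟨ha1, ha2, ha3⟩
    unfold GenX at ha3
    push Not at ha3
    obtain ⟨b, i, j, k, q, h1, h2, h3, h4, h5, h6, h7, h8, h9, h10, h11, h12, h13, h14⟩ := ha3
    have hq : q < E := lt_of_lt_of_le h10 (hZ.1 b)
    refine ⟨(b, i, j, k, ⟨q, hq⟩), ha1, ha2, ⟨h1, h2, h3, h4, h5, h6, h7, h8, h9, h10, ?_, ?_⟩,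
      ?_, h14⟩
    · rintro ⟨h, h'⟩
      exact absurd h' (not_lt.2 (h11 h))
    · rintro ⟨h, h'⟩
      exact absurd h' (not_lt.2 (h12 h))
    · exact h13
  · rintro ⟨b, i, j, k, q⟩
    refine cta p hp K hK n m β hβ b _ ?_
    rintro a ⟨ha1, ha2, ⟨h1, h2, h3, h4, h5, h6, h7, h8, h9, h10, h11, h12⟩, h13, h14⟩ a'
      ⟨ha1', -, -, -, h14'⟩ hcong
    have hsub : ∀ x, gv β ν a x - gv β ν a' x = (sv β (a x) - sv β (a' x)) * ν := by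
      intro x
      unfold gv
      ring
    have hnorm : ∀ x, ‖gv β ν a x - gv β ν a' x‖ = ‖sv β (a x) - sv β (a' x)‖ := by
      intro x
      rw [hsub, norm_mul, hν, mul_one]
    have key := gxa p hp K hK n e A E hZ hE hA1 hA0 (gv β ν a) (gv β ν a')
      (fun x => by unfold gv; rw [norm_mul, ha1 x, hν, mul_one])
      (fun x => by unfold gv; rw [norm_mul, ha1' x, hν, mul_one]) ha2 b i j k (q : ℕ)
      h1 h2 h3 h4 h5 h6 h7 h8 h9 h10 h11 h12 h13 ?_ h14 h14'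
    · rw [hnorm] at key
      exact key
    · intro x hx
      rw [hnorm]
      refine Pool.Agent.ZPK.H80.sv_cong hp hK hβ.1 fun r => ?_
      exact dvd_trans (dvd_pow_self _ two_ne_zero) (hcong x hx r)

end

end Pool.Agent.ZPK.H48
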