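import Pool.Agent.ZPK.StmtsT

/-!
# ZPK, row TPS (helper48): two small coordinates
-/

set_option autoImplicit false

namespace Pool.Agent.ZPK.H48

open Pool.Agent.ZPT Pool.Agent.ZP3

theorem tps (rns : RnsStmt) : TpsStmt := by
  intro U hU p hp hp5 K _ _ _ _ hE L e e₁ e₂ A₁ A₂ g₁ g₂ h₁ h₂ he he1 t q₁ q₂ ht0 ht1 hsm hq₁ hq₂ hdep
  obtain ⟨n1, r1⟩ := rns U hU p hp hp5 K hE L e e₁ A₁ g₁ h₁ he1 (by omega) t q₁ ht0 ht1 hsm hq₁
  obtain ⟨n2, r2⟩ := rns U hU p hp hp5 K hE L e e₂ A₂ g₂ h₂ he1 (by omega) t q₂ ht0 ht1 hsm hq₂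
  have hq1 : q₁ ≠ 0 := norm_pos_iff.1 hq₁.q0
  have hq2 : q₂ ≠ 0 := norm_pos_iff.1 hq₂.q0
  have hp1 : (1 : ℝ) < p := by exact_mod_cast hp.one_lt
  have hg2 : g₂ ≠ 0 := by
    intro h
    have := h₂.g1
    rw [h, norm_zero] at this
    exact zero_ne_one this
  have hζ : ‖q₂ / q₁‖ = 1 := by
    rw [norm_div, n1, n2, div_self]
    positivity
  refine ⟨q₂ / q₁, ?_, ?_, ?_⟩
  · obtain ⟨a, b, ha, hb, hab⟩ := hdep
    have h3 := congrArg norm hab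
    rw [norm_pow, norm_pow, n1, n2] at h3
    have h4 : a = b := by
      have h5 : ((p : ℝ)⁻¹) < 1 := inv_lt_one_of_one_lt₀ hp1
      have h6 : (0 : ℝ) < (p : ℝ)⁻¹ := by positivity
      exact (pow_right_injective₀ h6 h5.ne) h3
    subst h4
    refine ⟨a, ha, ?_⟩
    rw [div_pow, hab, div_self (pow_ne_zero _ hq2)]
  · set w : K := (p : K) / t ^ e with hw
    set l₁ : K := lS e e₁ A₁ g₁ with hl1
    set l₂ : K := lS e e₂ A₂ g₂ with hl2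
    have e1 : g₁ / g₂ * (1 + l₁ * w) - q₂ / q₁ * (1 + l₂ * w) =
        g₂⁻¹ * (q₂ / q₁ * ((p : K) * q₂⁻¹ - g₂ * (1 + l₂ * w)) -
          ((p : K) * q₁⁻¹ - g₁ * (1 + l₁ * w))) := by
      field_simp
      ring
    rw [e1, norm_mul, norm_inv, h₂.g1, inv_one, one_mul]
    rw [sub_eq_add_neg (q₂ / q₁ * ((p : K) * q₂⁻¹ - g₂ * (1 + l₂ * w)))]
    refine (IsUltrametricDist.norm_add_le_max _ _).trans (max_le ?_ ?_)
    · rw [norm_mul, hζ, one_mul]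
      exact r2
    · rw [norm_neg]
      exact r1
  · intro M hM h
    rw [div_pow, div_eq_one_iff_eq (pow_ne_zero _ hq1)] at h
    exact h.symm

end Pool.Agent.ZPK.H48
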